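import Mathlib
import Pool.Agent.R376.GcdBinom2

namespace Pool.Agent.Results.MP_cb2649_nt.GcdOne

open Pool.Agent.R376.GcdBinom

/-- For every `k ≥ 2`: `G k = 1` iff `k + 1` is larger than the square of its largest prime-power
divisor. -/
theorem result (k : ℕ) (hk : 2 ≤ k) : G k = 1 ↔ (k + 1) / P (k + 1) > P (k + 1) :=
  main k hk

end Pool.Agent.Results.MP_cb2649_nt.GcdOne
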