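import Mathlib
import Pool.Agent.R376.GcdBinom2

namespace Pool.Agent.Results.MP_cb2649_nt.LiteralFalse

open Pool.Agent.R376.GcdBinom

theorem P30 : P 30 ≤ 5 := by
  obtain ⟨q, e, m, hq, he, hqm, hn, hP⟩ := P_spec (n := 30) (by norm_num)
  have hqd : q ∣ 30 := by
    rw [hn]; exact (dvd_pow_self q (by omega)).mul_right m
  have he1 : e = 1 := by
    by_contra hne
    have h2 : q ^ 2 ∣ 30 := by
      rw [hn]; exact (pow_dvd_pow q (by omega)).mul_right m
    have h3 : q ^ 2 ≤ 30 := Nat.le_of_dvd (by norm_num) h2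
    have h4 : q ≤ 5 := by nlinarith
    have h5 := hq.two_le
    interval_cases q <;> norm_num at h2
  rw [hP, he1, pow_one]
  have h6 : q ∣ 2 * 3 * 5 := by norm_num; exact hqd
  rcases hq.dvd_mul.mp h6 with h7 | h7
  · rcases hq.dvd_mul.mp h7 with h8 | h8
    · exact (Nat.le_of_dvd (by norm_num) h8).trans (by norm_num)
    · exact (Nat.le_of_dvd (by norm_num) h8).trans (by norm_num)
  · exact Nat.le_of_dvd (by norm_num) h7

theorem P29 : 29 ≤ P 29 := by
  have h : 29 = 29 ^ 1 * 1 := by norm_num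
  have := le_P (n := 29) (q := 29) (e := 1) (m := 1) (by norm_num) (by norm_num) le_rfl
    (by norm_num) h
  simpa using this

/-- Literal version of Q1: it fails at `k = 29`. -/
theorem result : ¬ (∀ k : ℕ, 2 ≤ k → (G k = 1 ↔ k / P k > P k)) := by
  intro H
  have h29 := H 29 (by norm_num)
  have hm := main 29 (by norm_num)
  have h30 := P30
  have hG : G 29 = 1 := by
    rw [hm]
    norm_num
    have hpos : 0 < P 30 := by
      obtain ⟨q, e, m, hq, he, hqm, hn, hP⟩ := P_spec (n := 30) (by norm_num)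
      rw [hP]; exact Nat.pow_pos hq.pos
    have : 30 / 5 ≤ 30 / P 30 := Nat.div_le_div_left h30 hpos
    omega
  have h1 := h29.mp hG
  have h2 := P29
  have h3 : 29 / P 29 ≤ 29 / 29 := Nat.div_le_div_left h2 (by norm_num)
  norm_num at h3
  omega

end Pool.Agent.Results.MP_cb2649_nt.LiteralFalse
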